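import Pool.Agent.Helper41.S8.e2.E0
import Pool.Agent.Helper41.S8.e2.E1
import Pool.Agent.Helper41.S8.e2.E2
import Pool.Agent.Helper41.S8.e2.E3
import Pool.Agent.Helper41.S8.e2.E4
import Pool.Agent.Helper41.S8.e2.E5
import Pool.Agent.Helper13.S8.e2.Ok
import Pool.Agent.Helper85.KL.R10

set_option autoImplicit false
set_option maxRecDepth 100000

/-!
The local lemma of the certificate.
-/

namespace S8.e2

open KL KC KF

/-- First rows (the empty types point at a row of zeros). -/
def X : Nat := 0xe800cf00aa0097006c001e001e001e001e0053002f001f0000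

theorem fit : Fit C X where
  fi := by decide +kernel
  rx := by decide +kernel
  r12 := by decide +kernel
  dr := by decide +kernel
  dc := by decide +kernel
  bc := rfl
  pb := rfl
  A := by decide
  M := by decide
  O := by decide

theorem cls : ∀ j < 470, ckR FI QT IM X F1 DM KM ND
    355 10000 415588352 403611648 140737488355328 j = true := by
  intro j hj
  by_cases h0 : j < 10
  · exact ckC_spec e0 j (by omega) (by omega)
  by_cases h1 : j < 20
  · exact ckC_spec e1 j (by omega) (by omega)
  by_cases h2 : j < 30
  · exact ckC_spec e2 j (by omega) (by omega)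
  by_cases h3 : j < 40
  · exact ckC_spec e3 j (by omega) (by omega)
  by_cases h4 : j < 50
  · exact ckC_spec e4 j (by omega) (by omega)
  by_cases h5 : j < 60
  · exact ckC_spec e5 j (by omega) (by omega)
  by_cases h6 : j < 70
  · exact ckC_spec e6 j (by omega) (by omega)
  by_cases h7 : j < 80
  · exact ckC_spec e7 j (by omega) (by omega)
  by_cases h8 : j < 90
  · exact ckC_spec e8 j (by omega) (by omega)
  by_cases h9 : j < 100
  · exact ckC_spec e9 j (by omega) (by omega)
  by_cases h10 : j < 110
  · exact ckC_spec e10 j (by omega) (by omega)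
  by_cases h11 : j < 120
  · exact ckC_spec e11 j (by omega) (by omega)
  by_cases h12 : j < 130
  · exact ckC_spec e12 j (by omega) (by omega)
  by_cases h13 : j < 140
  · exact ckC_spec e13 j (by omega) (by omega)
  by_cases h14 : j < 150
  · exact ckC_spec e14 j (by omega) (by omega)
  by_cases h15 : j < 160
  · exact ckC_spec e15 j (by omega) (by omega)
  by_cases h16 : j < 170
  · exact ckC_spec e16 j (by omega) (by omega)
  by_cases h17 : j < 180
  · exact ckC_spec e17 j (by omega) (by omega)
  by_cases h18 : j < 190
  · exact ckC_spec e18 j (by omega) (by omega)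
  by_cases h19 : j < 200
  · exact ckC_spec e19 j (by omega) (by omega)
  by_cases h20 : j < 210
  · exact ckC_spec e20 j (by omega) (by omega)
  by_cases h21 : j < 220
  · exact ckC_spec e21 j (by omega) (by omega)
  by_cases h22 : j < 230
  · exact ckC_spec e22 j (by omega) (by omega)
  by_cases h23 : j < 240
  · exact ckC_spec e23 j (by omega) (by omega)
  by_cases h24 : j < 250
  · exact ckC_spec e24 j (by omega) (by omega)
  by_cases h25 : j < 260
  · exact ckC_spec e25 j (by omega) (by omega)
  by_cases h26 : j < 270
  · exact ckC_spec e26 j (by omega) (by omega)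
  by_cases h27 : j < 280
  · exact ckC_spec e27 j (by omega) (by omega)
  by_cases h28 : j < 290
  · exact ckC_spec e28 j (by omega) (by omega)
  by_cases h29 : j < 300
  · exact ckC_spec e29 j (by omega) (by omega)
  by_cases h30 : j < 310
  · exact ckC_spec e30 j (by omega) (by omega)
  by_cases h31 : j < 320
  · exact ckC_spec e31 j (by omega) (by omega)
  by_cases h32 : j < 330
  · exact ckC_spec e32 j (by omega) (by omega)
  by_cases h33 : j < 340
  · exact ckC_spec e33 j (by omega) (by omega)
  by_cases h34 : j < 350
  · exact ckC_spec e34 j (by omega) (by omega)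
  by_cases h35 : j < 360
  · exact ckC_spec e35 j (by omega) (by omega)
  by_cases h36 : j < 370
  · exact ckC_spec e36 j (by omega) (by omega)
  by_cases h37 : j < 380
  · exact ckC_spec e37 j (by omega) (by omega)
  by_cases h38 : j < 390
  · exact ckC_spec e38 j (by omega) (by omega)
  by_cases h39 : j < 400
  · exact ckC_spec e39 j (by omega) (by omega)
  by_cases h40 : j < 410
  · exact ckC_spec e40 j (by omega) (by omega)
  by_cases h41 : j < 420
  · exact ckC_spec e41 j (by omega) (by omega)
  by_cases h42 : j < 430
  · exact ckC_spec e42 j (by omega) (by omega)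
  by_cases h43 : j < 440
  · exact ckC_spec e43 j (by omega) (by omega)
  by_cases h44 : j < 450
  · exact ckC_spec e44 j (by omega) (by omega)
  by_cases h45 : j < 460
  · exact ckC_spec e45 j (by omega) (by omega)
  exact ckC_spec e46 j (by omega) (by omega)

/-- **The finite check.** -/
theorem hf (V : Type) (_ : Fintype V) (E : V → V → V → Bool) (w : V → ℝ) (κ : V → Fin 6)
    (hE : K4m E) (hw : Wt w) : 0 ≤ (AL.map fun a =>
      Ev 5 w (fun φ => ((C.G (cm E (fun v => a (κ v)) φ) : ℤ) : ℝ))).sum :=
  fin fit cls hE hw κ

/-- **The local lemma.** -/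
theorem loc : KS.LocL ((61 : ℝ) / 10000) (20 / 10000) (355 / 10000) (7 / 10000) (415588352 / 403611648) := by
  have h := KR.locL (U := 7 / 10000) ok (by decide) (by decide) pb AL_ne AL_inj AL_D6 hf
  have e1 : (C.A : ℝ) = 355 := by norm_num [C]
  have e2 : (C.B : ℝ) = 10000 := by norm_num [C]
  have e3 : (C.P : ℝ) = 415588352 := by norm_num [C]
  have e4 : (C.M : ℝ) = 403611648 := by norm_num [C]
  rw [e1, e2, e3, e4] at h
  exact_mod_cast h

end S8.e2
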